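import Pool.Agent.K7.H55.AN.Fin2

set_option autoImplicit false

/-!
# General collisions of `r` fat points: all numbers `r` at once

`EveryDegree r m` says that the general collision of `r` points of multiplicity `m` (the subscheme of the
plane with the ideal `(y - (a₀ + a₁ x + ... + a_(r-1) x ^ (r-1)), (x - c) ^ r) ^ m`) lies on the expected
number of curves of EVERY degree, over all fields of characteristic zero.

1. For every `R` the multiplicities `m` such that `EveryDegree r m` holds for every `r` from 10 to `R` and for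
   every square `r ≥ 10` occur with bounded gaps.
2. For EVERY multiplicity `m ≥ 1` there are at most `C m ^ (5 / 6)` numbers `r ≥ 10` for which
   `EveryDegree r m` does not hold.
-/

namespace Pool.Agent.Results.MP_e6aa12_ag.EveryNumberTogether

open Polynomial

universe u

/-- The forms of degree `d` in three variables whose dehomogenisation lies in the ideal
`(y - ∑ a_j x ^ j, (x - c) ^ r) ^ m` of `k[x][y]`. -/
noncomputable def forms {k : Type u} [Field k] {r : ℕ} (m : ℕ) (c : k) (a : Fin r → k) (d : ℕ) :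
    Submodule k (MvPolynomial (Fin 3) k) :=
  MvPolynomial.homogeneousSubmodule (Fin 3) k d ⊓
    (Submodule.restrictScalars k
      ((Ideal.span {X - C (∑ j : Fin r, C (a j) * X ^ (j : ℕ)), C ((X - C c) ^ r)} :
        Ideal k[X][X]) ^ m)).comap
      (MvPolynomial.aeval ![C X, X, 1] :
        MvPolynomial (Fin 3) k →ₐ[k] k[X][X]).toLinearMap

/-- Over every field of characteristic zero, for all `(c, a)` outside one hypersurface, the space of
forms has the expected dimension in every degree. -/
def EveryDegree (r m : ℕ) : Prop :=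
  ∀ (k : Type u) [Field k] [CharZero k],
    ∃ F : MvPolynomial (Fin (r + 1)) k, F ≠ 0 ∧
      ∀ (c : k) (a : Fin r → k), MvPolynomial.eval (Fin.cons c a : Fin (r + 1) → k) F ≠ 0 →
        ∀ d : ℕ, Module.finrank k (forms m c a d) = Nat.choose (d + 2) 2 - r * Nat.choose (m + 1) 2

theorem result :
    (∀ R : ℕ, ∃ B : ℕ, ∀ M : ℕ, ∃ m : ℕ, M ≤ m ∧ m < M + B ∧
      ∀ r : ℕ, 10 ≤ r → (r ≤ R ∨ IsSquare r) → EveryDegree.{u} r m) ∧
    ∃ C : ℝ, 0 < C ∧ ∀ m : ℕ, 1 ≤ m →
      {r : ℕ | 10 ≤ r ∧ ¬ EveryDegree.{u} r m}.Finite ∧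
      (Set.ncard {r : ℕ | 10 ≤ r ∧ ¬ EveryDegree.{u} r m} : ℝ) ≤ C * (m : ℝ) ^ ((5 : ℝ) / 6) :=
  ⟨fun R => K7.H55.AN.together_R R, K7.H55.AN.few56⟩

end Pool.Agent.Results.MP_e6aa12_ag.EveryNumberTogether
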