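import Pool.Agent.K7.H2.RR.Table
import Pool.Agent.K7.H2.RR.AsmC
import Pool.Agent.TH885.NW.Prop

set_option autoImplicit false

/-!
# General collisions of `r < 100` fat points: independence from `t = up r` on

Write `t = (2 d + 3) - √r (2 m + 1)`. For `r` from 10 to 99, not a square and not 11 or 13, for every
`m`, every field `k` of characteristic zero and all `(c, a)` outside a hypersurface, the forms of degree
`d` through the subscheme of the plane with ideal
`(y - (a₀ + a₁ x + ... + a_(r-1) x ^ (r-1)), (x - c) ^ r) ^ m` have the expected dimension for all `d` with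
`t ≥ up r` (and for `t < - low r`), where `up r` is between `0.13` and `0.62`. In particular the upper
density of the multiplicities which are not settled in every degree is at most `(low r + up r) / 2`.
-/

namespace Pool.Agent.Results.MP_e6aa12_ag.IndependenceUpTo99

open Polynomial Filter

universe u

/-- The forms of degree `d` in three variables whose dehomogenisation lies in the ideal
`(y - ∑ a_j x ^ j, (x - c) ^ r) ^ m` of `k[x][y]`. -/
noncomputable def forms {k : Type u} [Field k] {r : ℕ} (m : ℕ) (c : k) (a : Fin r → k) (d : ℕ) :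
    Submodule k (MvPolynomial (Fin 3) k) :=
  MvPolynomial.homogeneousSubmodule (Fin 3) k d ⊓
    (Submodule.restrictScalars k
      ((Ideal.span {X - C (∑ j : Fin r, C (a j) * X ^ (j : ℕ)), C ((X - C c) ^ r)} :
        Ideal k[X][X]) ^ m)).comap
      (MvPolynomial.aeval ![C X, X, 1] :
        MvPolynomial (Fin 3) k →ₐ[k] k[X][X]).toLinearMap

/-- Over every field of characteristic zero, for all `(c, a)` outside a hypersurface, the space of
forms has the expected dimension in all degrees `d` in the set `S`. -/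
def Expected (r m : ℕ) (S : Set ℕ) : Prop :=
  ∀ (k : Type u) [Field k] [CharZero k],
    ∃ F : MvPolynomial (Fin (r + 1)) k, F ≠ 0 ∧
      ∀ (c : k) (a : Fin r → k), MvPolynomial.eval (Fin.cons c a : Fin (r + 1) → k) F ≠ 0 →
        ∀ d ∈ S, Module.finrank k (forms m c a d) = Nat.choose (d + 2) 2 - r * Nat.choose (m + 1) 2

/-- the lower end of the window of open degrees -/
noncomputable def low (r : ℕ) : ℝ :=
  min (Real.sqrt r - 3) (2 / 3 + 9 / (4 * Real.sqrt r))

/-- The pairs of `r` and `1000 * up r`, the upper end of the window of open degrees. -/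
def table : List (ℕ × ℕ) :=
  [(10, 130), (12, 310), (14, 434), (15, 524), (17, 465), (18, 553), (19, 620), (20, 589),
    (21, 528), (22, 596), (23, 547), (24, 475), (26, 416), (27, 407), (28, 492), (29, 380),
    (30, 331), (31, 415), (32, 333), (33, 208), (34, 167), (35, 250), (37, 246), (38, 245),
    (39, 197), (40, 313), (41, 376), (42, 286), (43, 317), (44, 425), (45, 483), (46, 392),
    (47, 374), (48, 474), (50, 481), (51, 390), (52, 373), (53, 516), (54, 601), (55, 466),
    (56, 477), (57, 410), (58, 502), (59, 584), (60, 442), (61, 357), (62, 327), (63, 476),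
    (65, 459), (66, 326), (67, 345), (68, 286), (69, 525), (70, 439), (71, 339), (72, 317),
    (73, 248), (74, 331), (75, 413), (76, 319), (77, 177), (78, 205), (79, 137), (80, 217),
    (82, 215), (83, 184), (84, 198), (85, 165), (86, 299), (87, 393), (88, 307), (89, 226),
    (90, 285), (91, 252), (92, 246), (93, 473), (94, 397), (95, 309), (96, 279), (97, 372),
    (98, 300), (99, 400)]

theorem expected {r u : ℕ} (h : (r, u) ∈ table) (m : ℕ) :
    Expected.{u} r m {d | 2 * (d : ℝ) + 3 - Real.sqrt r * (2 * m + 1) < -low r ∨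
      (u : ℝ) / 1000 ≤ 2 * d + 3 - Real.sqrt r * (2 * m + 1)} := by
  obtain ⟨hr, hsq, M, s1, s2, A1, A2, b1, b2, G, L, tabs, hc⟩ := K7.H2.RR.tableC_cer h
  have hirr : Irrational (Real.sqrt r) := irrational_sqrt_natCast_iff.2 hsq
  intro k _ _
  obtain ⟨F1, hF1, hF1'⟩ := Pool.Agent.TH183.QS.coll_every hr m k
  obtain ⟨F2, hF2, hF2'⟩ := Pool.Agent.TH183.QS.coll_wrap (r := r) (m := m) (by omega)
    (PL := fun _ => False) (PH := fun d : ℕ => (u : ℝ) / 1000 ≤ 2 * d + 3 - Real.sqrt r * (2 * m + 1))
    ⟨0, fun _ h => h.elim⟩ (fun _ h => h.elim)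
    (fun d hd => K7.H2.RR.indAt_cer hr hirr hc (by push_cast; linarith)) k
  refine ⟨F1 * F2, mul_ne_zero hF1 hF2, fun c a hca d hd => ?_⟩
  rw [map_mul] at hca
  rcases hd with hd | hd
  · refine hF1' c a (left_ne_zero_of_mul hca) d ?_
    unfold low at hd
    rcases min_choice (Real.sqrt r - 3) (2 / 3 + 9 / (4 * Real.sqrt r)) with h1 | h1 <;> rw [h1] at hd
    · left; linarith
    · right; right; left; linarith
  · exact hF2' c a (right_ne_zero_of_mul hca) d (Or.inr hd)

theorem density {r u : ℕ} (h : (r, u) ∈ table) {c : ℝ} (hc : (low r + u / 1000) / 2 < c) :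
    ∀ᶠ M : ℕ in atTop,
      (Set.ncard {m : ℕ | m < M ∧ ¬ Expected.{u} r m Set.univ} : ℝ) ≤ c * M := by
  classical
  obtain ⟨hr, hsq, -⟩ := K7.H2.RR.tableC_cer h
  have hirr : Irrational (Real.sqrt r) := irrational_sqrt_natCast_iff.2 hsq
  have hlow : 0 ≤ low r := by
    have h1 : 3 ≤ Real.sqrt r := Real.le_sqrt_of_sq_le (by
      have : (10 : ℝ) ≤ r := by exact_mod_cast hr
      linarith)
    unfold low
    exact le_min (by linarith) (by positivity)
  have hu0 : (0 : ℝ) ≤ (u : ℝ) / 1000 := by positivity
  obtain ⟨M0, hM0⟩ := TH885.NW.count_sharp hirr ((Real.sqrt r - 3) / 2) (low r / 2) (u / 1000 / 2)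
    (by linarith) (sub_pos.2 hc)
  filter_upwards [eventually_ge_atTop ⌈M0⌉₊] with M hM
  have hM' : M0 ≤ M := (Nat.le_ceil M0).trans (by exact_mod_cast hM)
  have hset : {m : ℕ | m < M ∧ ¬ Expected.{u} r m Set.univ} =
      ↑((Finset.range M).filter fun m => ¬ Expected.{u} r m Set.univ) := by
    ext m
    simp only [Set.mem_ofPred_eq, Finset.coe_filter, Finset.mem_range]
  rw [hset, Set.ncard_coe_finset]
  have h1 := hM0 M hM' ((Finset.range M).filter fun m => ¬ Expected.{u} r m Set.univ)
    (fun m hm => Finset.mem_range.1 (Finset.mem_filter.1 hm).1) (fun m hm => by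
      have h3 := (Finset.mem_filter.1 hm).2
      by_contra hcon
      push Not at hcon
      apply h3
      intro k _ _
      obtain ⟨F, hF, hF'⟩ := expected h m k
      refine ⟨F, hF, fun c a hca d _ => hF' c a hca d ?_⟩
      rcases lt_or_ge (2 * (d : ℝ) + 3 - Real.sqrt r * (2 * m + 1)) (-low r) with h4 | h4
      · exact Or.inl h4
      · right
        have h5 := hcon d (by push_cast; linarith)
        push_cast at h5
        linarith)
  have e : low r / 2 + (u : ℝ) / 1000 / 2 + (c - (low r + u / 1000) / 2) = c := by ring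
  rw [e] at h1
  exact h1

/-- **General collisions of `r < 100` fat points: the upper end of the open window.** -/
theorem result :
    (∀ r u : ℕ, (r, u) ∈ table → ∀ m : ℕ,
      Expected.{u} r m {d | 2 * (d : ℝ) + 3 - Real.sqrt r * (2 * m + 1) < -low r ∨
        (u : ℝ) / 1000 ≤ 2 * d + 3 - Real.sqrt r * (2 * m + 1)}) ∧
    (∀ r u : ℕ, (r, u) ∈ table → ∀ c : ℝ, (low r + u / 1000) / 2 < c → ∀ᶠ M : ℕ in atTop,
      (Set.ncard {m : ℕ | m < M ∧ ¬ Expected.{u} r m Set.univ} : ℝ) ≤ c * M) :=
  ⟨fun _ _ h m => expected h m, fun _ _ h _ hc => density h hc⟩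

end Pool.Agent.Results.MP_e6aa12_ag.IndependenceUpTo99
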