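import Pool.Agent.K7.H2.RR.TableE
import Pool.Agent.K7.H2.RR.AsmC
import Pool.Agent.TH885.NW.Prop

set_option autoImplicit false

/-!
# General collisions of `r < 100` fat points: the lower end of the window of open degrees

Write `t = (2 d + 3) - √r (2 m + 1)`. For `r` from 12 to 99, not a square and not 13, for every `m`,
every field `k` of characteristic zero and all `(c, a)` outside a hypersurface, there are no forms of
degree `d` through the subscheme of the plane with ideal
`(y - (a₀ + a₁ x + ... + a_(r-1) x ^ (r-1)), (x - c) ^ r) ^ m` beyond the expected ones for all `d` with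
`t ≤ - lo r`, where `lo r` is between `0.277` and `0.62` (for larger `m` than the ones known completely
the expected dimension is zero there). Together with independence for `t ≥ up r` the upper density of
the multiplicities which are not settled in every degree is at most `(lo r + up r) / 2`.
-/

namespace Pool.Agent.Results.MP_e6aa12_ag.LowerEndUpTo99

open Polynomial Filter

universe u

/-- The forms of degree `d` in three variables whose dehomogenisation lies in the ideal
`(y - ∑ a_j x ^ j, (x - c) ^ r) ^ m` of `k[x][y]`. -/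
noncomputable def forms {k : Type u} [Field k] {r : ℕ} (m : ℕ) (c : k) (a : Fin r → k) (d : ℕ) :
    Submodule k (MvPolynomial (Fin 3) k) :=
  MvPolynomial.homogeneousSubmodule (Fin 3) k d ⊓
    (Submodule.restrictScalars k
      ((Ideal.span {X - C (∑ j : Fin r, C (a j) * X ^ (j : ℕ)), C ((X - C c) ^ r)} :
        Ideal k[X][X]) ^ m)).comap
      (MvPolynomial.aeval ![C X, X, 1] :
        MvPolynomial (Fin 3) k →ₐ[k] k[X][X]).toLinearMap

/-- Over every field of characteristic zero, for all `(c, a)` outside a hypersurface, the space of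
forms has the expected dimension in all degrees `d` in the set `S`. -/
def Expected (r m : ℕ) (S : Set ℕ) : Prop :=
  ∀ (k : Type u) [Field k] [CharZero k],
    ∃ F : MvPolynomial (Fin (r + 1)) k, F ≠ 0 ∧
      ∀ (c : k) (a : Fin r → k), MvPolynomial.eval (Fin.cons c a : Fin (r + 1) → k) F ≠ 0 →
        ∀ d ∈ S, Module.finrank k (forms m c a d) = Nat.choose (d + 2) 2 - r * Nat.choose (m + 1) 2

/-- The triples of `r`, `1000 * lo r` and `1000 * up r`. -/
def table : List (ℕ × ℕ × ℕ) :=
  [(12, 310, 310), (14, 445, 434), (15, 582, 524), (17, 489, 465), (18, 553, 553), (19, 620, 620),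
    (20, 589, 589), (21, 528, 528), (22, 596, 596), (23, 547, 547), (24, 475, 475),
    (26, 518, 416), (27, 532, 407), (28, 492, 492), (29, 387, 380), (30, 424, 331),
    (31, 442, 415), (32, 340, 333), (33, 443, 208), (34, 452, 167), (35, 394, 250),
    (37, 385, 246), (38, 435, 245), (39, 319, 197), (40, 531, 313), (41, 391, 376),
    (42, 479, 286), (43, 495, 317), (44, 582, 425), (45, 515, 483), (46, 392, 392),
    (47, 400, 374), (48, 474, 474), (50, 481, 481), (51, 390, 390), (52, 373, 373),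
    (53, 516, 516), (54, 601, 601), (55, 466, 466), (56, 477, 477), (57, 410, 410),
    (58, 502, 502), (59, 584, 584), (60, 442, 442), (61, 357, 357), (62, 366, 327),
    (63, 476, 476), (65, 459, 459), (66, 345, 326), (67, 357, 345), (68, 391, 286),
    (69, 525, 525), (70, 439, 439), (71, 379, 339), (72, 317, 317), (73, 419, 248),
    (74, 331, 331), (75, 413, 413), (76, 336, 319), (77, 395, 177), (78, 421, 205),
    (79, 287, 137), (80, 335, 217), (82, 277, 215), (83, 282, 184), (84, 410, 198),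
    (85, 380, 165), (86, 299, 299), (87, 393, 393), (88, 313, 307), (89, 371, 226),
    (90, 352, 285), (91, 282, 252), (92, 326, 246), (93, 473, 473), (94, 421, 397),
    (95, 352, 309), (96, 279, 279), (97, 372, 372), (98, 300, 300), (99, 400, 400)]

theorem expected {r l u : ℕ} (h : (r, l, u) ∈ table) (m : ℕ) :
    Expected.{u} r m {d | 2 * (d : ℝ) + 3 - Real.sqrt r * (2 * m + 1) ≤ -((l : ℝ) / 1000) ∨
      (u : ℝ) / 1000 ≤ 2 * d + 3 - Real.sqrt r * (2 * m + 1)} := by
  obtain ⟨hC, hE⟩ := K7.H2.RR.tableE_cer h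
  obtain ⟨hr, hsq, M, s1, s2, A1, A2, b1, b2, G, L, tabs, hc⟩ := K7.H2.RR.tableC_cer hC
  have hirr : Irrational (Real.sqrt r) := irrational_sqrt_natCast_iff.2 hsq
  intro k _ _
  rcases le_or_gt (m : ℝ) (r - 6 * Real.sqrt r + 11) with hsm | hlg
  · obtain ⟨F, hF, hF'⟩ := Pool.Agent.TH183.QS.coll_start hr (Or.inl hsm) k
    exact ⟨F, hF, fun c a hc d _ => hF' c a hc d⟩
  have hm : (r : ℝ) - 6 * Real.sqrt r + 10 < m := by linarith
  obtain ⟨F1, hF1, hF1'⟩ := Pool.Agent.TH183.QS.coll_every hr m k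
  obtain ⟨F2, hF2, hF2'⟩ := Pool.Agent.TH183.QS.coll_wrap (r := r) (m := m) (by omega)
    (PL := fun d : ℕ => -min (Real.sqrt r - 3) (2 / 3 + 9 / (4 * Real.sqrt r)) ≤
        2 * d + 3 - Real.sqrt r * (2 * m + 1) ∧
      2 * (d : ℝ) + 3 - Real.sqrt r * (2 * m + 1) ≤ -(l : ℝ) / 1000)
    (PH := fun d : ℕ => (u : ℝ) / 1000 ≤ 2 * d + 3 - Real.sqrt r * (2 * m + 1))
    ⟨⌈Real.sqrt r * (2 * m + 1)⌉₊, fun d hd => by
      have h1 := Nat.le_ceil (Real.sqrt r * (2 * m + 1))
      have h2 : (0 : ℝ) ≤ (l : ℝ) / 1000 := by positivity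
      have h3 : (0 : ℝ) ≤ d := Nat.cast_nonneg d
      have h4 : (d : ℝ) ≤ ⌈Real.sqrt r * (2 * m + 1)⌉₊ := by linarith [hd.2]
      exact_mod_cast h4⟩
    (fun d hd => K7.H2.RR.empAt_cer hr hirr hm hE hd.1 hd.2)
    (fun d hd => K7.H2.RR.indAt_cer hr hirr hc (by push_cast; linarith)) k
  refine ⟨F1 * F2, mul_ne_zero hF1 hF2, fun c a hca d hd => ?_⟩
  rw [map_mul] at hca
  rcases hd with hd | hd
  · rcases lt_or_ge (2 * (d : ℝ) + 3 - Real.sqrt r * (2 * m + 1))
      (-min (Real.sqrt r - 3) (2 / 3 + 9 / (4 * Real.sqrt r))) with h0 | h0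
    · refine hF1' c a (left_ne_zero_of_mul hca) d ?_
      rcases min_choice (Real.sqrt r - 3) (2 / 3 + 9 / (4 * Real.sqrt r)) with h1 | h1 <;> rw [h1] at h0
      · left; linarith
      · right; right; left; linarith
    · exact hF2' c a (right_ne_zero_of_mul hca) d (Or.inl ⟨h0, by linarith⟩)
  · exact hF2' c a (right_ne_zero_of_mul hca) d (Or.inr hd)

theorem density {r l u : ℕ} (h : (r, l, u) ∈ table) {c : ℝ} (hc : ((l : ℝ) + u) / 2000 < c) :
    ∀ᶠ M : ℕ in atTop,
      (Set.ncard {m : ℕ | m < M ∧ ¬ Expected.{u} r m Set.univ} : ℝ) ≤ c * M := by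
  classical
  obtain ⟨hC, -⟩ := K7.H2.RR.tableE_cer h
  obtain ⟨hr, hsq, -⟩ := K7.H2.RR.tableC_cer hC
  have hirr : Irrational (Real.sqrt r) := irrational_sqrt_natCast_iff.2 hsq
  obtain ⟨M0, hM0⟩ := TH885.NW.count_sharp hirr ((Real.sqrt r - 3) / 2) ((l : ℝ) / 1000 / 2)
    ((u : ℝ) / 1000 / 2) (by positivity) (sub_pos.2 hc)
  filter_upwards [eventually_ge_atTop ⌈M0⌉₊] with M hM
  have hM' : M0 ≤ M := (Nat.le_ceil M0).trans (by exact_mod_cast hM)
  have hset : {m : ℕ | m < M ∧ ¬ Expected.{u} r m Set.univ} =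
      ↑((Finset.range M).filter fun m => ¬ Expected.{u} r m Set.univ) := by
    ext m
    simp only [Set.mem_ofPred_eq, Finset.coe_filter, Finset.mem_range]
  rw [hset, Set.ncard_coe_finset]
  have h1 := hM0 M hM' ((Finset.range M).filter fun m => ¬ Expected.{u} r m Set.univ)
    (fun m hm => Finset.mem_range.1 (Finset.mem_filter.1 hm).1) (fun m hm => by
      have h3 := (Finset.mem_filter.1 hm).2
      by_contra hcon
      push Not at hcon
      apply h3
      intro k _ _
      obtain ⟨F, hF, hF'⟩ := expected h m k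
      refine ⟨F, hF, fun c a hca d _ => hF' c a hca d ?_⟩
      rcases le_or_gt (2 * (d : ℝ) + 3 - Real.sqrt r * (2 * m + 1)) (-((l : ℝ) / 1000)) with h4 | h4
      · exact Or.inl h4
      · right
        have h5 := hcon d (by push_cast; linarith)
        push_cast at h5
        linarith)
  have e : (l : ℝ) / 1000 / 2 + (u : ℝ) / 1000 / 2 + (c - ((l : ℝ) + u) / 2000) = c := by ring
  rw [e] at h1
  exact h1

/-- **General collisions of `r < 100` fat points: the lower end of the open window.** -/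
theorem result :
    (∀ r l u : ℕ, (r, l, u) ∈ table → ∀ m : ℕ,
      Expected.{u} r m {d | 2 * (d : ℝ) + 3 - Real.sqrt r * (2 * m + 1) ≤ -((l : ℝ) / 1000)}) ∧
    (∀ r l u : ℕ, (r, l, u) ∈ table → ∀ c : ℝ, ((l : ℝ) + u) / 2000 < c → ∀ᶠ M : ℕ in atTop,
      (Set.ncard {m : ℕ | m < M ∧ ¬ Expected.{u} r m Set.univ} : ℝ) ≤ c * M) :=
  ⟨fun _ _ _ h m => by
    intro k _ _
    obtain ⟨F, hF, hF'⟩ := expected h m k
    exact ⟨F, hF, fun c a hc d hd => hF' c a hc d (Or.inl hd)⟩, fun _ _ _ h _ hc => density h hc⟩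

end Pool.Agent.Results.MP_e6aa12_ag.LowerEndUpTo99
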