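import Pool.Agent.K7.H8.Co.Thirteen

set_option autoImplicit false

/-!
# Collisions of thirteen fat points, all multiplicities and all degrees

For every `m` and every field `k` of characteristic zero, or of characteristic `p` with
`11 m ≤ 10 p`, for all `(c, a)` outside a hypersurface, the forms of degree `d` through the subscheme
of the plane with ideal `(y - (a₀ + a₁ x + ... + a₁₂ x ^ 12), (x - c) ^ 13) ^ m` have the expected
dimension, for every degree `d`.
-/

namespace Pool.Agent.Results.MP_e6aa12_ag.ThirteenEveryDegree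

open Polynomial

universe u

/-- The forms of degree `d` in three variables whose dehomogenisation lies in the ideal
`(y - ∑ a_j x ^ j, (x - c) ^ r) ^ m` of `k[x][y]`. -/
noncomputable def forms {k : Type u} [Field k] {r : ℕ} (m : ℕ) (c : k) (a : Fin r → k) (d : ℕ) :
    Submodule k (MvPolynomial (Fin 3) k) :=
  MvPolynomial.homogeneousSubmodule (Fin 3) k d ⊓
    (Submodule.restrictScalars k
      ((Ideal.span {X - C (∑ j : Fin r, C (a j) * X ^ (j : ℕ)), C ((X - C c) ^ r)} :
        Ideal k[X][X]) ^ m)).comap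
      (MvPolynomial.aeval ![C X, X, 1] :
        MvPolynomial (Fin 3) k →ₐ[k] k[X][X]).toLinearMap

/-- For all `(c, a)` outside a hypersurface, the space of forms has the expected dimension in every
degree `d`. -/
def ExpectedEveryDegree (k : Type u) [Field k] (r m : ℕ) : Prop :=
  ∃ F : MvPolynomial (Fin (r + 1)) k, F ≠ 0 ∧
    ∀ (c : k) (a : Fin r → k), MvPolynomial.eval (Fin.cons c a : Fin (r + 1) → k) F ≠ 0 →
      ∀ d : ℕ, Module.finrank k (forms m c a d) = Nat.choose (d + 2) 2 - r * Nat.choose (m + 1) 2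

theorem result (m : ℕ) (k : Type u) [Field k] :
    (CharZero k → ExpectedEveryDegree k 13 m) ∧
    ∀ p : ℕ, CharP k p → 11 * m ≤ 10 * p → ExpectedEveryDegree k 13 m := by
  refine ⟨fun h => ?_, fun p h hp => ?_⟩
  · have : CharP k 0 := CharP.ofCharZero k
    obtain ⟨F, hF, hF'⟩ := Pool.Agent.K7.H8.Co.thirteen_all (m := m) (p := 0) (Or.inl rfl) k
    exact ⟨F, hF, fun c a hc d => hF' c a hc d⟩
  · obtain ⟨F, hF, hF'⟩ := Pool.Agent.K7.H8.Co.thirteen_all (m := m) (p := p) (Or.inr hp) k
    exact ⟨F, hF, fun c a hc d => hF' c a hc d⟩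

end Pool.Agent.Results.MP_e6aa12_ag.ThirteenEveryDegree
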